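import Pool.Agent.E8helper44.Zn.P3
import Pool.Agent.E8helper29.Zn.Stm2

/-!
Piece 22 of project ZN2 (helper29): a flat nonnegative kernel of linear growth with small total variation.
-/

set_option autoImplicit false

namespace Pool.Agent.E8helper86.Zn

open MeasureTheory ProbabilityTheory Pool.Agent.E8helper29.Zn Pool.Agent.Helper649.Zono
open scoped Nat

/-- the trigonometric identity -/
lemma cos_pow (m : ℕ) (θ : ℝ) :
    (2 - 2 * Real.cos θ) ^ m = ∑ k ∈ Finset.range (2 * m + 1),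
      ((-1 : ℝ) ^ (k + m) * ((2 * m).choose k : ℝ)) * Real.cos (((k : ℝ) - m) * θ) := by
  have key : (((2 - 2 * Real.cos θ) ^ m : ℝ) : ℂ) = ∑ k ∈ Finset.range (2 * m + 1),
      (((-1 : ℝ) ^ (k + m) * ((2 * m).choose k : ℝ) : ℝ) : ℂ) *
        Complex.exp (((((k : ℝ) - m) * θ : ℝ) : ℂ) * Complex.I) := by
    set u : ℂ := Complex.exp ((θ : ℂ) * Complex.I / 2) with hu
    set u' : ℂ := Complex.exp (-((θ : ℂ) * Complex.I / 2)) with hu'
    have e1 : u ^ 2 = Complex.exp ((θ : ℂ) * Complex.I) := by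
      rw [hu, ← Complex.exp_nat_mul]
      congr 1
      push_cast
      ring
    have e2 : u' ^ 2 = Complex.exp (-(θ : ℂ) * Complex.I) := by
      rw [hu', ← Complex.exp_nat_mul]
      congr 1
      push_cast
      ring
    have e3 : u * u' = 1 := by
      rw [hu, hu', ← Complex.exp_add, add_neg_cancel, Complex.exp_zero]
    have e4 : (-u + u') ^ 2 = -(2 - 2 * Complex.cos θ) := by
      have h := Complex.two_cos (x := (θ : ℂ))
      have e5 : (-u + u') ^ 2 = u ^ 2 + u' ^ 2 - 2 * (u * u') := by ring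
      rw [e5, e1, e2, e3, h]
      ring
    have e5 : (-u + u') ^ (2 * m) = (-1) ^ m * (2 - 2 * Complex.cos θ) ^ m := by
      rw [pow_mul, e4, neg_pow]
    have e6 := add_pow (-u) u' (2 * m)
    rw [e5] at e6
    have e7 : (((2 - 2 * Real.cos θ) ^ m : ℝ) : ℂ) =
        (-1) ^ m * ((-1) ^ m * (2 - 2 * Complex.cos θ) ^ m) := by
      rw [← mul_assoc, ← mul_pow]
      push_cast
      norm_num
    rw [e7, e6, Finset.mul_sum]
    refine Finset.sum_congr rfl fun k hk => ?_
    have hk' : k ≤ 2 * m := by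
      have := Finset.mem_range.1 hk
      omega
    have e8 : (-u) ^ k * u' ^ (2 * m - k) =
        (-1) ^ k * Complex.exp (((((k : ℝ) - m) * θ : ℝ) : ℂ) * Complex.I) := by
      rw [neg_pow, hu, hu', ← Complex.exp_nat_mul, ← Complex.exp_nat_mul, mul_assoc,
        ← Complex.exp_add]
      congr 2
      rw [Nat.cast_sub hk']
      push_cast
      ring
    rw [e8]
    push_cast
    ring
  have h2 := congrArg Complex.re key
  rw [Complex.ofReal_re, Complex.re_sum] at h2
  rw [h2]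
  refine Finset.sum_congr rfl fun k _ => ?_
  rw [Complex.re_ofReal_mul, Complex.exp_ofReal_mul_I_re]

/-- the characteristic function -/
lemma int_cos (b : ℝ) : ∫ x, Real.cos (b * x) ∂(gaussianReal 0 1) = Real.exp (-(b ^ 2) / 2) := by
  have h1 := charFun_gaussianReal (μ := 0) (v := 1) b
  rw [charFun_apply_real] at h1
  have hint : Integrable (fun x : ℝ => Complex.exp ((b : ℂ) * x * Complex.I)) (gaussianReal 0 1) := by
    refine Integrable.mono' (integrable_const (1 : ℝ)) ?_ (Filter.Eventually.of_forall fun x => ?_)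
    · exact (by fun_prop : Continuous fun x : ℝ => Complex.exp ((b : ℂ) * x * Complex.I)).aestronglyMeasurable
    · have e1 : (b : ℂ) * x * Complex.I = ((b * x : ℝ) : ℂ) * Complex.I := by push_cast; ring
      rw [e1, Complex.norm_exp_ofReal_mul_I]
  have h2 := integral_re hint
  rw [h1] at h2
  have e2 : ∀ x : ℝ, RCLike.re (Complex.exp ((b : ℂ) * x * Complex.I)) = Real.cos (b * x) := by
    intro x
    have e1 : (b : ℂ) * x * Complex.I = ((b * x : ℝ) : ℂ) * Complex.I := by push_cast; ring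
    rw [e1]
    exact Complex.exp_ofReal_mul_I_re _
  simp only [e2] at h2
  rw [h2]
  have e3 : (b : ℂ) * ((0 : ℝ) : ℂ) * Complex.I - ((1 : NNReal) : ℂ) * (b : ℂ) ^ 2 / 2 =
      ((-(b ^ 2) / 2 : ℝ) : ℂ) := by
    push_cast
    ring
  rw [e3]
  exact Complex.exp_ofReal_re _

/-- the even moments -/
lemma mom (m : ℕ) : (∫ x, x ^ (2 * m) ∂(gaussianReal 0 1)) * (2 ^ m * (m ! : ℝ)) = ((2 * m)! : ℝ) := by
  induction m with
  | zero => simp
  | succ m ih =>
    have h := stein (Polynomial.X ^ (2 * m + 1))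
    have e1 : ∀ x : ℝ, x * (Polynomial.X ^ (2 * m + 1) : Polynomial ℝ).eval x = x ^ (2 * (m + 1)) := by
      intro x
      rw [Polynomial.eval_pow, Polynomial.eval_X]
      ring
    have e2 : ∀ x : ℝ, (Polynomial.derivative (Polynomial.X ^ (2 * m + 1) : Polynomial ℝ)).eval x =
        (2 * m + 1) * x ^ (2 * m) := by
      intro x
      rw [Polynomial.derivative_X_pow]
      simp
    simp only [e1, e2] at h
    rw [h, integral_const_mul]
    have e3 : ((2 * (m + 1))! : ℝ) = (2 * m + 2) * (2 * m + 1) * ((2 * m)! : ℝ) := by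
      have : (2 * (m + 1))! = (2 * m + 2) * ((2 * m + 1) * (2 * m)!) := by
        have e4 : 2 * (m + 1) = (2 * m + 1) + 1 := by ring
        rw [e4, Nat.factorial_succ, Nat.factorial_succ]
      rw [this]
      push_cast
      ring
    have e4 : ((m + 1)! : ℝ) = (m + 1) * (m ! : ℝ) := by
      rw [Nat.factorial_succ]
      push_cast
      ring
    rw [e3, e4, ← ih]
    ring

/-- the combination of Gaussians -/
noncomputable def hh (m : ℕ) (r : ℝ) : ℝ := ∑ k ∈ Finset.range (2 * m + 1),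
  ((-1 : ℝ) ^ (k + m) * ((2 * m).choose k : ℝ)) * Real.exp (-((((k : ℝ) - m) * r) ^ 2) / 2)

lemma hh_eq (m : ℕ) (r : ℝ) :
    hh m r = ∫ x, (2 - 2 * Real.cos (r * x)) ^ m ∂(gaussianReal 0 1) := by
  have e1 : ∀ x : ℝ, (2 - 2 * Real.cos (r * x)) ^ m = ∑ k ∈ Finset.range (2 * m + 1),
      ((-1 : ℝ) ^ (k + m) * ((2 * m).choose k : ℝ)) * Real.cos ((((k : ℝ) - m) * r) * x) := by
    intro x
    rw [cos_pow]
    refine Finset.sum_congr rfl fun k _ => ?_
    congr 2
    ring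
  simp only [e1]
  have hb : ∀ b : ℝ, Integrable (fun x : ℝ => Real.cos (b * x)) (gaussianReal 0 1) := by
    intro b
    refine Integrable.mono' (integrable_const (1 : ℝ)) ?_ (Filter.Eventually.of_forall fun x => ?_)
    · exact (by fun_prop : Continuous fun x : ℝ => Real.cos (b * x)).aestronglyMeasurable
    · exact Real.abs_cos_le_one _
  rw [integral_finset_sum _ fun k _ => (hb _).const_mul _]
  unfold hh
  refine Finset.sum_congr rfl fun k _ => ?_
  rw [integral_const_mul, int_cos]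

lemma hh_nonneg (m : ℕ) (r : ℝ) : 0 ≤ hh m r := by
  rw [hh_eq]
  refine integral_nonneg fun x => ?_
  have := Real.cos_le_one (r * x)
  exact pow_nonneg (by linarith) _

lemma hh_le (m : ℕ) (r : ℝ) : hh m r ≤ r ^ (2 * m) * (((2 * m)! : ℝ) / (2 ^ m * (m ! : ℝ))) := by
  have h1 : ∫ x, (2 - 2 * Real.cos (r * x)) ^ m ∂(gaussianReal 0 1) ≤
      ∫ x, r ^ (2 * m) * x ^ (2 * m) ∂(gaussianReal 0 1) := by
    refine integral_mono_of_nonneg (Filter.Eventually.of_forall fun x => ?_)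
      ((poly_integrable_pow (2 * m) 1).const_mul _) (Filter.Eventually.of_forall fun x => ?_)
    · have := Real.cos_le_one (r * x)
      exact pow_nonneg (by linarith) _
    · show (2 - 2 * Real.cos (r * x)) ^ m ≤ r ^ (2 * m) * x ^ (2 * m)
      have h2 := Real.one_sub_sq_div_two_le_cos (x := r * x)
      have h3 := Real.cos_le_one (r * x)
      calc (2 - 2 * Real.cos (r * x)) ^ m ≤ ((r * x) ^ 2) ^ m :=
            pow_le_pow_left₀ (by linarith) (by linarith) m
        _ = r ^ (2 * m) * x ^ (2 * m) := by rw [← pow_mul, mul_pow]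
  rw [hh_eq]
  refine h1.trans (le_of_eq ?_)
  rw [integral_const_mul]
  congr 1
  rw [eq_div_iff (by positivity)]
  exact mom m

/-- the weight -/
noncomputable def gg (m : ℕ) (r : ℝ) : ℝ :=
  Real.exp (-(r ^ 2) / 2) * (hh m r / ((2 * m).choose m : ℝ))

lemma gg_cont (m : ℕ) : Continuous (gg m) := by
  unfold gg hh
  fun_prop

lemma choose_pos (m : ℕ) : (0 : ℝ) < ((2 * m).choose m : ℝ) := by
  exact_mod_cast Nat.choose_pos (by omega)

lemma gg_nonneg (m : ℕ) (r : ℝ) : 0 ≤ gg m r := by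
  unfold gg
  have := hh_nonneg m r
  have := choose_pos m
  positivity

lemma gg_even (m : ℕ) (r : ℝ) : gg m (-r) = gg m r := by
  unfold gg hh
  simp only [neg_sq, mul_neg]

lemma e_le (r : ℝ) : Real.exp (-(r ^ 2) / 2) ≤ 1 := by
  rw [Real.exp_le_one_iff]
  nlinarith [sq_nonneg r]

lemma gg_le (m : ℕ) (r : ℝ) : gg m r ≤ (m : ℝ) ^ m * r ^ (2 * m) := by
  have h1 := hh_le m r
  have h2 := choose_pos m
  have h3 : hh m r / ((2 * m).choose m : ℝ) ≤ (m : ℝ) ^ m * r ^ (2 * m) := by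
    rw [div_le_iff₀ h2]
    refine h1.trans ?_
    have e1 : ((2 * m).choose m : ℝ) * ((m ! : ℝ) * (m ! : ℝ)) = ((2 * m)! : ℝ) := by
      have := Nat.choose_mul_factorial_mul_factorial (n := 2 * m) (k := m) (by omega)
      have e2 : 2 * m - m = m := by omega
      rw [e2] at this
      rw [← this]
      push_cast
      ring
    have hf : (0 : ℝ) < (m ! : ℝ) := by exact_mod_cast Nat.factorial_pos m
    have e2 : ((2 * m)! : ℝ) / (2 ^ m * (m ! : ℝ)) ≤ (m : ℝ) ^ m * ((2 * m).choose m : ℝ) := by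
      rw [div_le_iff₀ (by positivity), ← e1]
      have h4 : (m ! : ℝ) ≤ (m : ℝ) ^ m := by
        exact_mod_cast Nat.factorial_le_pow m
      have h5 : (1 : ℝ) ≤ 2 ^ m := one_le_pow₀ (by norm_num)
      have h6 : (m ! : ℝ) ≤ (m : ℝ) ^ m * 2 ^ m := by
        calc (m ! : ℝ) = m ! * 1 := by ring
          _ ≤ (m : ℝ) ^ m * 2 ^ m := mul_le_mul h4 h5 (by norm_num) (by positivity)
      calc ((2 * m).choose m : ℝ) * ((m ! : ℝ) * (m ! : ℝ))
          = ((2 * m).choose m : ℝ) * (m ! : ℝ) * (m ! : ℝ) := by ring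
        _ ≤ ((2 * m).choose m : ℝ) * (m ! : ℝ) * ((m : ℝ) ^ m * 2 ^ m) := by
            apply mul_le_mul_of_nonneg_left h6
            positivity
        _ = (m : ℝ) ^ m * ((2 * m).choose m : ℝ) * (2 ^ m * (m ! : ℝ)) := by ring
    have hr : 0 ≤ r ^ (2 * m) := by
      rw [pow_mul]
      positivity
    calc r ^ (2 * m) * (((2 * m)! : ℝ) / (2 ^ m * (m ! : ℝ)))
        ≤ r ^ (2 * m) * ((m : ℝ) ^ m * ((2 * m).choose m : ℝ)) := mul_le_mul_of_nonneg_left e2 hr
      _ = (m : ℝ) ^ m * r ^ (2 * m) * ((2 * m).choose m : ℝ) := by ring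
  unfold gg
  have h4 : 0 ≤ hh m r / ((2 * m).choose m : ℝ) := div_nonneg (hh_nonneg m r) h2.le
  calc Real.exp (-(r ^ 2) / 2) * (hh m r / ((2 * m).choose m : ℝ))
      ≤ 1 * (hh m r / ((2 * m).choose m : ℝ)) := mul_le_mul_of_nonneg_right (e_le r) h4
    _ ≤ _ := by rw [one_mul]; exact h3

lemma geo (m : ℕ) : ∑ j ∈ Finset.range m, (1 / 7 : ℝ) ^ (j + 1) ≤ 1 / 6 := by
  have h : ∑ j ∈ Finset.range m, (1 / 7 : ℝ) ^ (j + 1) = (1 - (1 / 7) ^ m) / 6 := by
    induction m with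
    | zero => simp
    | succ m ih =>
      rw [Finset.sum_range_succ, ih]
      ring
  rw [h]
  have : (0 : ℝ) ≤ (1 / 7) ^ m := by positivity
  linarith

lemma term_lower {m k : ℕ} (hk : k ≤ 2 * m) {r : ℝ} (hr : 2 ≤ r) {j : ℕ}
    (hj : |(k : ℝ) - m| = j + 1) :
    -((1 / 7 : ℝ) ^ (j + 1)) ≤ ((-1 : ℝ) ^ (k + m) * ((2 * m).choose k : ℝ)) *
      Real.exp (-((((k : ℝ) - m) * r) ^ 2) / 2) / ((2 * m).choose m : ℝ) := by
  have h1 : ((2 * m).choose k : ℝ) ≤ ((2 * m).choose m : ℝ) := by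
    have := Nat.choose_le_centralBinom k m
    rw [Nat.centralBinom_eq_two_mul_choose] at this
    exact_mod_cast this
  have h2 := choose_pos m
  have h3 : Real.exp (-((((k : ℝ) - m) * r) ^ 2) / 2) ≤ (1 / 7 : ℝ) ^ (j + 1) := by
    have e1 : (((k : ℝ) - m) * r) ^ 2 = ((j : ℝ) + 1) ^ 2 * r ^ 2 := by
      rw [mul_pow, ← sq_abs ((k : ℝ) - m), hj]
    have e2 : -((((k : ℝ) - m) * r) ^ 2) / 2 ≤ ((j + 1 : ℕ) : ℝ) * (-2) := by
      rw [e1]
      have h4 : (4 : ℝ) ≤ r ^ 2 := by nlinarith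
      have h5 : (1 : ℝ) ≤ (j : ℝ) + 1 := by
        have := Nat.cast_nonneg (α := ℝ) j
        linarith
      push_cast
      nlinarith [mul_nonneg (by linarith : (0 : ℝ) ≤ (j : ℝ) + 1) (by linarith : (0 : ℝ) ≤ (j : ℝ) + 1 - 1),
        mul_nonneg (sq_nonneg ((j : ℝ) + 1)) (by linarith : (0 : ℝ) ≤ r ^ 2 - 4)]
    have e3 : Real.exp (-2) ≤ 1 / 7 := by
      have h6 : (7 : ℝ) ≤ Real.exp 2 := by
        have h7 := Real.exp_one_gt_d9
        have h8 : Real.exp 2 = Real.exp 1 * Real.exp 1 := by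
          rw [← Real.exp_add]
          norm_num
        rw [h8]
        nlinarith
      rw [Real.exp_neg, inv_eq_one_div]
      exact one_div_le_one_div_of_le (by norm_num) h6
    calc Real.exp (-((((k : ℝ) - m) * r) ^ 2) / 2) ≤ Real.exp (((j + 1 : ℕ) : ℝ) * (-2)) :=
          Real.exp_le_exp.2 e2
      _ = Real.exp (-2) ^ (j + 1) := by rw [Real.exp_nat_mul]
      _ ≤ (1 / 7 : ℝ) ^ (j + 1) := pow_le_pow_left₀ (Real.exp_pos _).le e3 _
  have h4 : |((-1 : ℝ) ^ (k + m) * ((2 * m).choose k : ℝ)) *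
      Real.exp (-((((k : ℝ) - m) * r) ^ 2) / 2) / ((2 * m).choose m : ℝ)| ≤ (1 / 7 : ℝ) ^ (j + 1) := by
    rw [abs_div, abs_mul, abs_mul, abs_pow, abs_neg, abs_one, one_pow, one_mul,
      abs_of_pos h2, abs_of_pos (Real.exp_pos _), Nat.abs_cast, div_le_iff₀ h2]
    calc ((2 * m).choose k : ℝ) * Real.exp (-((((k : ℝ) - m) * r) ^ 2) / 2)
        ≤ ((2 * m).choose m : ℝ) * (1 / 7 : ℝ) ^ (j + 1) :=
          mul_le_mul h1 h3 (Real.exp_pos _).le h2.le
      _ = _ := by ring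
  exact (abs_le.1 h4).1

lemma hh_lower {m : ℕ} {r : ℝ} (hr : 2 ≤ r) : 1 / 2 ≤ hh m r / ((2 * m).choose m : ℝ) := by
  have h2 := choose_pos m
  unfold hh
  rw [Finset.sum_div]
  have e1 : 2 * m + 1 = m + (m + 1) := by ring
  rw [e1, Finset.sum_range_add, Finset.sum_range_succ', ← Finset.sum_range_reflect]
  have e2 : ((-1 : ℝ) ^ (m + 0 + m) * ((m + m).choose (m + 0) : ℝ)) *
      Real.exp (-(((((m + 0 : ℕ) : ℝ) - m) * r) ^ 2) / 2) / ((m + m).choose m : ℝ) = 1 := by
    have h3 : ((m + 0 : ℕ) : ℝ) - m = 0 := by rw [add_zero, sub_self]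
    have h4 : (-1 : ℝ) ^ (m + 0 + m) = 1 := by
      rw [add_zero]
      exact Even.neg_one_pow ⟨m, rfl⟩
    rw [h3, h4, zero_mul]
    have h5 : ((m + m).choose m : ℝ) ≠ 0 := by
      rw [← two_mul]
      exact h2.ne'
    rw [add_zero]
    simp [h5]
  have e3 : ∀ j ∈ Finset.range m, -((1 / 7 : ℝ) ^ (j + 1)) ≤
      ((-1 : ℝ) ^ ((m - 1 - j) + m) * ((2 * m).choose (m - 1 - j) : ℝ)) *
        Real.exp (-(((((m - 1 - j : ℕ) : ℝ) - m) * r) ^ 2) / 2) / ((2 * m).choose m : ℝ) := by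
    intro j hj
    have hj' := Finset.mem_range.1 hj
    refine term_lower (by omega) hr ?_
    have h3 : ((m - 1 - j : ℕ) : ℝ) = m - 1 - j := by
      rw [Nat.cast_sub (by omega), Nat.cast_sub (by omega), Nat.cast_one]
    rw [h3]
    have h4 : (m : ℝ) - 1 - j - m = -((j : ℝ) + 1) := by ring
    rw [h4, abs_neg, abs_of_nonneg (by positivity)]
  have e4 : ∀ j ∈ Finset.range m, -((1 / 7 : ℝ) ^ (j + 1)) ≤
      ((-1 : ℝ) ^ ((m + (j + 1)) + m) * ((2 * m).choose (m + (j + 1)) : ℝ)) *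
        Real.exp (-(((((m + (j + 1) : ℕ) : ℝ) - m) * r) ^ 2) / 2) / ((2 * m).choose m : ℝ) := by
    intro j hj
    have hj' := Finset.mem_range.1 hj
    refine term_lower (by omega) hr ?_
    have h4 : ((m + (j + 1) : ℕ) : ℝ) - m = (j : ℝ) + 1 := by push_cast; ring
    rw [h4, abs_of_nonneg (by positivity)]
  have g1 := Finset.sum_le_sum e3
  have g2 := Finset.sum_le_sum e4
  rw [Finset.sum_neg_distrib] at g1 g2
  have g3 := geo m
  simp only [two_mul] at *
  rw [e2]
  linarith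

lemma gg_lower {m : ℕ} {r : ℝ} (hr : 2 ≤ r) (hr' : r ≤ 3) :
    Real.exp (-(9 / 2)) * (1 / 2) ≤ gg m r := by
  unfold gg
  refine mul_le_mul ?_ (hh_lower hr) (by norm_num) (Real.exp_pos _).le
  apply Real.exp_le_exp.2
  nlinarith

/-- the kernel -/
noncomputable def KK (m : ℕ) (t : ℝ) : ℝ := ∫ r in (0 : ℝ)..t, (t - r) * gg m r

lemma KK_neg (m : ℕ) (t : ℝ) : KK m (-t) = KK m t := by
  unfold KK
  have h := intervalIntegral.integral_comp_neg (a := 0) (b := t) (fun r => (-t - r) * gg m r)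
  rw [neg_zero] at h
  rw [intervalIntegral.integral_symm, ← h, ← intervalIntegral.integral_neg]
  congr 1
  funext r
  rw [gg_even]
  ring

lemma KK_abs (m : ℕ) (t : ℝ) : KK m |t| = KK m t := by
  rcases abs_cases t with ⟨h, _⟩ | ⟨h, _⟩
  · rw [h]
  · rw [h, KK_neg]

lemma kint_cont (m : ℕ) (t : ℝ) : Continuous fun r => (t - r) * gg m r := by
  have := gg_cont m
  fun_prop

lemma KK_nonneg {m : ℕ} {t : ℝ} (ht : 0 ≤ t) : 0 ≤ KK m t := by
  unfold KK
  apply intervalIntegral.integral_nonneg ht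
  intro r hr
  have := gg_nonneg m r
  have h2 : 0 ≤ t - r := by linarith [hr.2]
  positivity

lemma KK_le {m : ℕ} {t : ℝ} (ht : 0 ≤ t) : KK m t ≤ (m : ℝ) ^ m * t ^ (2 * m + 2) := by
  unfold KK
  have h1 : ∀ r ∈ Set.Icc (0 : ℝ) t, (t - r) * gg m r ≤ (m : ℝ) ^ m * t ^ (2 * m + 1) := by
    intro r hr
    have h2 : gg m r ≤ (m : ℝ) ^ m * t ^ (2 * m) := by
      refine (gg_le m r).trans ?_
      apply mul_le_mul_of_nonneg_left _ (by positivity)
      exact pow_le_pow_left₀ hr.1 hr.2 _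
    calc (t - r) * gg m r ≤ t * ((m : ℝ) ^ m * t ^ (2 * m)) :=
          mul_le_mul (by linarith [hr.1]) h2 (gg_nonneg m r) ht
      _ = (m : ℝ) ^ m * t ^ (2 * m + 1) := by ring
  have h2 := intervalIntegral.integral_mono_on ht ((kint_cont m t).intervalIntegrable 0 t)
    (continuous_const.intervalIntegrable (μ := volume) 0 t) h1
  refine h2.trans ?_
  rw [intervalIntegral.integral_const, smul_eq_mul, sub_zero]
  apply le_of_eq
  ring

lemma KK_lower {m : ℕ} {t : ℝ} (ht : 4 ≤ t) : Real.exp (-(9 / 2)) / 8 * t ≤ KK m t := by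
  have hc := kint_cont m t
  have hi : ∀ a b : ℝ, IntervalIntegrable (fun r => (t - r) * gg m r) volume a b :=
    fun a b => hc.intervalIntegrable a b
  have hpos : ∀ a b : ℝ, a ≤ b → b ≤ t → 0 ≤ ∫ r in a..b, (t - r) * gg m r := by
    intro a b hab hbt
    apply intervalIntegral.integral_nonneg hab
    intro r hr
    have := gg_nonneg m r
    have h2 : 0 ≤ t - r := by linarith [hr.2]
    positivity
  have hsplit : KK m t = (∫ r in (0 : ℝ)..2, (t - r) * gg m r) +
      (∫ r in (2 : ℝ)..3, (t - r) * gg m r) + ∫ r in (3 : ℝ)..t, (t - r) * gg m r := by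
    unfold KK
    rw [intervalIntegral.integral_add_adjacent_intervals (hi _ _) (hi _ _),
      intervalIntegral.integral_add_adjacent_intervals (hi _ _) (hi _ _)]
  have hmid : Real.exp (-(9 / 2)) / 8 * t ≤ ∫ r in (2 : ℝ)..3, (t - r) * gg m r := by
    have h1 : ∀ r ∈ Set.Icc (2 : ℝ) 3,
        t / 4 * (Real.exp (-(9 / 2)) * (1 / 2)) ≤ (t - r) * gg m r := by
      intro r hr
      apply mul_le_mul _ (gg_lower hr.1 hr.2) (by positivity) (by linarith [hr.2])
      linarith [hr.2]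
    have h2 := intervalIntegral.integral_mono_on (by norm_num : (2 : ℝ) ≤ 3)
      (continuous_const.intervalIntegrable (μ := volume) _ _) (hi _ _) h1
    refine le_trans (le_of_eq ?_) h2
    rw [intervalIntegral.integral_const, smul_eq_mul]
    ring
  have h3 := hpos 0 2 (by norm_num) (by linarith)
  have h4 := hpos 3 t (by linarith) le_rfl
  rw [hsplit]
  linarith

/-- the coefficients -/
noncomputable def rhoc (m k : ℕ) : ℝ := ((-1 : ℝ) ^ (k + m) * ((2 * m).choose k : ℝ)) /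
  ((2 * m).choose m : ℝ) * (Real.sqrt (2 * Real.pi) / 2) / (((k : ℝ) - m) ^ 2 + 1)

/-- the scales -/
noncomputable def xc (m k : ℕ) : ℝ := Real.sqrt (((k : ℝ) - m) ^ 2 + 1)

lemma sum_eq (h : Stm1) (m : ℕ) (t : ℝ) :
    ∑ k : Fin (2 * m + 1), rhoc m k * (kap (xc m k * t) - kap 0) = KK m t := by
  have hpi : (0 : ℝ) < Real.sqrt (2 * Real.pi) := by positivity
  have hC := choose_pos m
  have h1 : ∀ k : ℕ, rhoc m k * (kap (xc m k * t) - kap 0) =
      ∫ r in (0 : ℝ)..t, (t - r) * (Real.exp (-(r ^ 2) / 2) *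
        (((-1 : ℝ) ^ (k + m) * ((2 * m).choose k : ℝ)) *
          Real.exp (-((((k : ℝ) - m) * r) ^ 2) / 2) / ((2 * m).choose m : ℝ))) := by
    intro k
    have hx : (0 : ℝ) < ((k : ℝ) - m) ^ 2 + 1 := by positivity
    have hx2 : xc m k ^ 2 = ((k : ℝ) - m) ^ 2 + 1 := Real.sq_sqrt hx.le
    rw [Pool.Agent.E8helper44.Zn.kap_sub h, hx2]
    have h2 : ∀ r : ℝ, (t - r) * (Real.exp (-((xc m k * r) ^ 2) / 2) / Real.sqrt (2 * Real.pi)) =
        (Real.sqrt (2 * Real.pi))⁻¹ * ((t - r) * (Real.exp (-(r ^ 2) / 2) *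
          Real.exp (-((((k : ℝ) - m) * r) ^ 2) / 2))) := by
      intro r
      have h3 : Real.exp (-((xc m k * r) ^ 2) / 2) =
          Real.exp (-(r ^ 2) / 2) * Real.exp (-((((k : ℝ) - m) * r) ^ 2) / 2) := by
        rw [← Real.exp_add, mul_pow, hx2]
        congr 1
        ring
      rw [h3]
      ring
    simp only [h2]
    rw [intervalIntegral.integral_const_mul, ← mul_assoc, ← mul_assoc,
      ← intervalIntegral.integral_const_mul]
    congr 1
    funext r
    unfold rhoc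
    field_simp
  have h2 := Finset.sum_range (n := 2 * m + 1) fun k => rhoc m k * (kap (xc m k * t) - kap 0)
  rw [← h2, Finset.sum_congr rfl fun k _ => h1 k, ← intervalIntegral.integral_finset_sum]
  · unfold KK
    congr 1
    funext r
    unfold gg hh
    rw [Finset.sum_div, Finset.mul_sum, Finset.mul_sum]
  · intro k _
    apply Continuous.intervalIntegrable
    fun_prop

lemma var_le {m k : ℕ} : |rhoc m k| * (2 + xc m k) ≤ 4 := by
  have hC := choose_pos m
  have hx : (1 : ℝ) ≤ ((k : ℝ) - m) ^ 2 + 1 := by nlinarith [sq_nonneg ((k : ℝ) - m)]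
  have hx1 : (1 : ℝ) ≤ xc m k := by
    unfold xc
    exact Real.one_le_sqrt.2 hx
  have hx2 : xc m k ^ 2 = ((k : ℝ) - m) ^ 2 + 1 := Real.sq_sqrt (by linarith)
  have h1 : ((2 * m).choose k : ℝ) ≤ ((2 * m).choose m : ℝ) := by
    have := Nat.choose_le_centralBinom k m
    rw [Nat.centralBinom_eq_two_mul_choose] at this
    exact_mod_cast this
  have hpi : Real.sqrt (2 * Real.pi) ≤ 51 / 20 := by
    rw [Real.sqrt_le_left (by norm_num)]
    have := Real.pi_lt_d2
    nlinarith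
  have hr : |rhoc m k| ≤ 51 / 40 / xc m k ^ 2 := by
    unfold rhoc
    rw [← hx2, abs_div, abs_mul, abs_div, abs_mul, abs_pow, abs_neg, abs_one, one_pow, one_mul,
      Nat.abs_cast, abs_of_pos hC, abs_of_nonneg (by positivity : 0 ≤ Real.sqrt (2 * Real.pi) / 2),
      abs_of_pos (by positivity : 0 < xc m k ^ 2)]
    apply div_le_div_of_nonneg_right _ (by positivity)
    calc ((2 * m).choose k : ℝ) / ((2 * m).choose m : ℝ) * (Real.sqrt (2 * Real.pi) / 2)
        ≤ 1 * (51 / 40) := by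
          apply mul_le_mul _ (by linarith) (by positivity) (by norm_num)
          rw [div_le_one hC]
          exact h1
      _ = 51 / 40 := by ring
  calc |rhoc m k| * (2 + xc m k) ≤ 51 / 40 / xc m k ^ 2 * (2 + xc m k) :=
        mul_le_mul_of_nonneg_right hr (by linarith)
    _ ≤ 4 := by
        rw [div_mul_eq_mul_div, div_le_iff₀ (by positivity)]
        nlinarith

theorem p22 (h : Stm1) : Stm22 := by
  refine ⟨Real.exp (-(9 / 2)) / 8, 12, by positivity, by norm_num, fun m hm =>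
    ⟨fun k => rhoc m k, fun k => xc m k, fun k => Real.sqrt_nonneg _, ?_, fun t => ?_, fun t => ?_,
      fun t ht => ?_⟩⟩
  · have h1 : ∑ k : Fin (2 * m + 1), |rhoc m k| * (2 + xc m k) ≤ ∑ _k : Fin (2 * m + 1), (4 : ℝ) :=
      Finset.sum_le_sum fun k _ => var_le
    refine h1.trans ?_
    rw [Finset.sum_const, Finset.card_univ, Fintype.card_fin, nsmul_eq_mul]
    have : (1 : ℝ) ≤ m := by exact_mod_cast hm
    push_cast
    linarith
  · rw [sum_eq h, ← KK_abs]
    exact KK_nonneg (abs_nonneg t)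
  · rw [sum_eq h, ← KK_abs]
    refine (KK_le (abs_nonneg t)).trans (le_of_eq ?_)
    congr 1
    exact Even.pow_abs (by exact ⟨m + 1, by ring⟩) t
  · rw [sum_eq h, ← KK_abs]
    exact KK_lower ht

end Pool.Agent.E8helper86.Zn
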